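import Pool.Agent.HS37.BL.BCanon

/-!
# Hard Lefschetz for homologically trivial cycles on `X × X` and motivic hard Lefschetz for `X`

`𝒱` is a class of smooth projective geometrically irreducible varieties over the field `k` closed
under products, `C` the Chow groups with rational coefficients (in the form of their formal
properties, `IsChowProj`) and `H` a Weil cohomology theory (`IsWeilProj`). Let `X` be a variety in
`𝒱` of dimension `d` and `D ∈ CH^1(X)` such that the Lefschetz standard conjecture `B(X)` holds for
`D` and homologically trivial self-correspondences of `X` are nilpotent. Both hypotheses are known,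
for example, for varieties dominated by products of curves. The middle case of hard Lefschetz for
homologically trivial cycles on a variety `Z` with `E ∈ CH^1(Z)` is the statement that
`E : CH^i(Z)_hom → CH^(i+1)(Z)_hom` is bijective for `2 i = dim Z`.

1. If `D × 1 + 1 × D : CH^d(X × X)_hom → CH^(d+1)(X × X)_hom` is onto, then `X` has a Chow-Kunneth
   decomposition with motivic hard Lefschetz for `D`.
2. If it is bijective, then there is a canonical such decomposition: there is exactly one
   Chow-Kunneth decomposition with `D · π_n = π_(n+2) · D` for all `n`. It is self-dual and has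
   motivic hard Lefschetz.
3. Under the hypothesis of 1, let `Y` be a variety in `𝒱` and `D' ∈ CH^1(Y)` with the middle case of
   hard Lefschetz for homologically trivial cycles for `(Y × X, D' × 1 + 1 × D)`. Then each
   correspondence from `Y` to `X` of middle codimension, which commutes with the multiplications by
   `D'` and `D` modulo homological equivalence, lifts to exactly one Chow correspondence with the
   same cohomology class which commutes with the multiplications by `D'` and `D`.

Proof. The operator `y ↦ D y + y D` on correspondences is the multiplication by `D × 1 + 1 × D`. By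
`B(X)` the sign operator `τ = (-1)^(m/2)` on `H^m` (`m` even) and its analogue for odd `m` are
algebraic; they anticommute with `D` in cohomology. By the surjectivity of `y ↦ D y + y D` one can
correct a lift of `τ` in one step to a correspondence `τ` with `D τ = -τ D`, invertible by the
nilpotence. With it the statement on `D y + y D` becomes one on `D y - y D`, and the operator `h`
with the eigenvalues `m - d` on `H^m` can be lifted such that `[h, D] = 2 D`. Its weight projectors
are the decomposition.
-/

open CategoryTheory AlgebraicGeometry

set_option autoImplicit false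

universe u v w

namespace Pool.Agent.Results.MP_e2c9e7_nt.CanonicalDecomposition

open Pool.Agent.H914 Pool.Agent.W492.BB Pool.Agent.TH133 Pool.Agent.Y107 Pool.Agent.HS37.BL

/-- Hard Lefschetz for homologically trivial cycles on the square and the canonical Chow-Kunneth
decomposition. -/
theorem result {k : Type u} [Field k] {𝒱 : VarClass k} (C : TheoryData.{u, v, 0} 𝒱 ℚ)
    [IsChowProj C] {K : Type w} [Field K] (H : WeilTheoryData.{u, v, w} C K) [IsWeilProj H]
    (X : 𝒱.Obj) (D : C.A X) (hD : LefschetzB H D) (hnil : HomNilpotent H X) :
    (MiddleSurjective H (C.ext D 1 + C.ext 1 D) → IsLefschetzClass H D) ∧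
    (MiddleBijective H (C.ext D 1 + C.ext 1 D) → ∃ π : ℕ → C.A (X.prod X), IsCK H X π ∧
      IsSelfDual C π ∧ MotivicLefschetz C (C.mulCorr D) π ∧ LHomogeneous C D π ∧
      ∀ π' : ℕ → C.A (X.prod X), IsCK H X π' → LHomogeneous C D π' → π' = π) ∧
    (MiddleSurjective H (C.ext D 1 + C.ext 1 D) → ∀ (Y : 𝒱.Obj) (D' : C.A Y), C.Deg 1 D' →
      MiddleBijective H (C.ext D' 1 + C.ext 1 D) → ∀ i : ℕ, 2 * i = (Y.prod X).dim →
      ∀ Γ : C.A (Y.prod X), C.Deg i Γ →
      H.cl (C.comp Γ (C.mulCorr D)) = H.cl (C.comp (C.mulCorr D') Γ) →
      ∃! Γ' : C.A (Y.prod X), C.Deg i Γ' ∧ H.cl Γ' = H.cl Γ ∧ LCommutes C D' D Γ') := by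
  refine ⟨isLefschetzClass_of_middle hD hnil, fun h => ?_, fun h Y D' hD' h2 i hi Γ hΓ hc =>
    unique_lift hD hnil h hD' h2 hi hΓ hc⟩
  obtain ⟨π, h1, h2, h3, h4⟩ := canonical_ck hD hnil h
  exact ⟨π, h1, h2, h3, h3.homogeneous, h4⟩

end Pool.Agent.Results.MP_e2c9e7_nt.CanonicalDecomposition
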