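import Pool.Agent.HS37.BL.BMid

/-!
# Beilinson's hard Lefschetz conjecture, nilpotence and two-step Bloch-Beilinson filtrations

`𝒱` is a class of smooth projective geometrically irreducible varieties over the field `k` closed
under products, such that the Lefschetz standard conjecture `B(X)` holds for all `X` in `𝒱` (for
example abelian varieties, or varieties dominated by products of curves), `C` the Chow groups with
rational coefficients (in the form of their formal properties, `IsChowProj`) and `H` a Weil
cohomology theory (`IsWeilProj`). Then the following are equivalent: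

1. There is a Bloch-Beilinson filtration with `F^2 = 0` on the Chow groups of the varieties in `𝒱`,
   as expected over number fields.
2. For all `X`, `Y` in `𝒱`, a correspondence from `X` to `Y` which acts as zero on `H^(2i-1)(X)`
   acts as zero on `CH^i(X)_hom`.
3. Homologically trivial self-correspondences of the varieties in `𝒱` are nilpotent, and hard
   Lefschetz for homologically trivial cycles, `D^(d+1-2i) : CH^i(X)_hom ≃ CH^(d+1-i)(X)_hom` for
   `2 i ≤ d + 1`, `d = dim X`, holds for all `X` in `𝒱` and all `D` for which `B(X)` holds.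
4. (If `𝒱` contains a variety of dimension one.) Homologically trivial self-correspondences of the
   varieties in `𝒱` are nilpotent, and `D : CH^i(X)_hom ≃ CH^(i+1)(X)_hom` for all `X` in `𝒱` of
   even dimension `2 i` and all `D` for which `B(X)` holds.

If they hold, each `X` in `𝒱` has a Chow-Kunneth decomposition with motivic hard Lefschetz for each
`D` for which `B(X)` holds, `CH^i(X)_hom = CH^i(h^(2i-1)(X))`, and products of homologically trivial
cycles on `X` are zero. For one variety `X` with nilpotence and `B(X)` for `D` all this follows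
already from hard Lefschetz for the homologically trivial cycles for `(X × X, D × 1 + 1 × D)`.
-/

open CategoryTheory AlgebraicGeometry

set_option autoImplicit false

universe u v w

namespace Pool.Agent.Results.MP_e2c9e7_nt.FiltrationAndStandardB

open Pool.Agent.H914 Pool.Agent.W492.BB Pool.Agent.TH133 Pool.Agent.Y107 Pool.Agent.HS37.BL

/-- Hard Lefschetz for homologically trivial cycles and two-step Bloch-Beilinson filtrations for
classes of varieties with the standard conjecture `B`. -/
theorem result {k : Type u} [Field k] {𝒱 : VarClass k} (C : TheoryData.{u, v, 0} 𝒱 ℚ)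
    [IsChowProj C] {K : Type w} [Field K] (H : WeilTheoryData.{u, v, w} C K) [IsWeilProj H] :
    (∀ (X : 𝒱.Obj) (D : C.A X), LefschetzB H D → HomNilpotent H X →
      HardLefschetzHom H (C.ext D 1 + C.ext 1 D) → IsLefschetzClass H D ∧
        HardLefschetzHom H D ∧ ActsByCohomology H X X ∧ ProductsZero H X ∧
        CompositionsZero H X) ∧
    ((∀ X : 𝒱.Obj, ∃ D : C.A X, LefschetzB H D) →
      List.TFAE
        [TwoStepBB H,
         ∀ X Y : 𝒱.Obj, ActsByCohomology H X Y,
         (∀ X : 𝒱.Obj, HomNilpotent H X) ∧
          ∀ (X : 𝒱.Obj) (D : C.A X), LefschetzB H D → HardLefschetzHom H D] ∧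
      ((∃ T : 𝒱.Obj, T.dim = 1) → (TwoStepBB H ↔ (∀ X : 𝒱.Obj, HomNilpotent H X) ∧
        ∀ (X : 𝒱.Obj) (D : C.A X), LefschetzB H D → MiddleBijective H D)) ∧
      (TwoStepBB H → ∀ (X : 𝒱.Obj) (D : C.A X), LefschetzB H D → IsLefschetzClass H D)) := by
  refine ⟨fun X D hD hnil h => square_of_B hD hnil h, fun hB => ?_⟩
  obtain ⟨h1, h2, h3⟩ := class_of_B (H := H) hB
  refine ⟨?_, fun hT => ?_, h3⟩
  · tfae_have 1 ↔ 2 := h2
    tfae_have 3 ↔ 1 := h1
    tfae_finish
  · rw [← h1]
    exact ⟨fun h => ⟨h.1, fun X D hD => middle_of_hard (h.2 X D hD)⟩,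
      fun h => ⟨h.1, fun X D hD => hard_of_middle hB hT h.2 hD⟩⟩

end Pool.Agent.Results.MP_e2c9e7_nt.FiltrationAndStandardB
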