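import Pool.Agent.HS37.BL.Height

/-!
# The conjectures of Beilinson on homologically trivial cycles and the conjectures of Murre

`𝒱` is a class of smooth projective geometrically irreducible varieties over the field `k` closed
under products (for example all of them), `C` the Chow groups with rational coefficients (in the
form of their formal properties, `IsChowProj`) and `H` a Weil cohomology theory (`IsWeilProj`), for
example `ℓ`-adic cohomology. Let `X` be of dimension `d`, and `D ∈ CH^1(X)` a divisor class for which
`X` has a Chow-Kunneth decomposition `π` with motivic hard Lefschetz: `D` is homogeneous for `π` and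
`D^(d-n) : h^n(X) → h^(2d-n)(X)(d-n)` is an isomorphism of Chow motives for `n ≤ d`. This is known for
abelian varieties (Kunnemann), and conjectured in general. Let
`F^n CH^i(X) = (π_(2i-n) + ⋯ + π_0)_* CH^i(X)` be the filtration of Murre.

Q1 is the statement that `D^(d+1-2i) : CH^i(X)_hom → CH^(d+1-i)(X)_hom` is bijective for
`2 i ≤ d + 1`, and Q2 the statement that `(-1)^i h(x, D^(d+1-2i) x) > 0` for `2 i ≤ d + 1` and the
non-zero `x ∈ CH^i(X)_hom` with `D^(d+2-2i) x = 0`, for the height pairing `h`. It is shown:

* the injectivity in Q1 is equivalent to Murre's conjecture (D) for `π`: `F^1 = CH_hom`;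
* the surjectivity in Q1 is equivalent to `F^2 = 0`;
* Q1 holds if and only if `CH^i(X)_hom = (π_(2i-1))_* CH^i(X)` for all `i ≥ 1`;
* Q2 implies Murre's conjecture (D) for `π`, and is equivalent to (D) and the inequality for the
  primitive elements of `(π_(2i-1))_* CH^i(X)`;
* if Q2 holds then the kernel of the height pairing on `CH^i(X)_hom` is exactly `F^2 CH^i(X)`, and
  Q1 holds if and only if the height pairing is non-degenerate.

No group is assumed to be finite-dimensional, and the last two parts hold for every pairing with
the formal properties of the height pairing.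
-/

open CategoryTheory AlgebraicGeometry

set_option autoImplicit false

universe u v w

namespace Pool.Agent.Results.MP_e2c9e7_nt.LefschetzHodgeMurre

open Pool.Agent.H914 Pool.Agent.W492.BB Pool.Agent.TH133 Pool.Agent.Y107 Pool.Agent.HS37.BL

/-- Hard Lefschetz and the Hodge index statement for homologically trivial cycles in terms of a
Chow-Kunneth decomposition with motivic hard Lefschetz. -/
theorem result {k : Type u} [Field k] {𝒱 : VarClass k} (C : TheoryData.{u, v, 0} 𝒱 ℚ)
    [IsChowProj C] {K : Type w} [Field K] (H : WeilTheoryData.{u, v, w} C K) [IsWeilProj H]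
    (X : 𝒱.Obj) (D : C.A X) (hD : C.Deg 1 D) (π : ℕ → C.A (X.prod X)) (hπ : IsCK H X π)
    (hM : MotivicLefschetz C (C.mulCorr D) π) :
    (LefschetzInj H D ↔ MurreDFor H π) ∧
    (LefschetzSurj H D ↔ SecondStepZero C π) ∧
    (LefschetzInj H D ∧ LefschetzSurj H D ↔ HomPure H π) ∧
    ∀ h : C.A X → C.A X → ℝ, IsHeightPairing H X h →
      (HodgeIndex H D h ↔ MurreDFor H π ∧ HodgeIndexPure C D π h) ∧
      (HodgeIndex H D h → KernelIsSecondStep H π h ∧
        (LefschetzInj H D ∧ LefschetzSurj H D ↔ HeightNondegenerate H h)) := by
  refine ⟨inj_iff_murreD hD hπ hM, surj_iff_fil hD hπ hM, both_iff hD hπ hM, fun h hh =>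
    ⟨index_iff hD hπ hM h fun i x hx hxI => height_zero_right hh hx hxI, fun hI =>
      ⟨kernel_iff hD hπ hM hh hI, ?_⟩⟩⟩
  have hinj : LefschetzInj H D :=
    (inj_iff_murreD hD hπ hM).2 ((index_iff hD hπ hM h fun i x hx hxI =>
      height_zero_right hh hx hxI).1 hI).1
  rw [and_iff_right hinj, surj_iff_fil hD hπ hM]
  constructor
  · intro h2 i x hx
    have h3 := (kernel_iff hD hπ hM hh hI i x).2 hx
    rw [h2 i] at h3
    exact (Submodule.mem_bot _).1 h3
  · intro h2 i
    rw [eq_bot_iff]
    intro x hx
    rw [Submodule.mem_bot]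
    exact h2 i x ((kernel_iff hD hπ hM hh hI i x).1 hx)

end Pool.Agent.Results.MP_e2c9e7_nt.LefschetzHodgeMurre
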