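import Pool.Agent.HS37.BL.Class

/-!
# Hard Lefschetz for homologically trivial cycles and two-step Bloch-Beilinson filtrations

`𝒱` is a class of smooth projective geometrically irreducible varieties over the field `k` closed
under products (for example all of them, or the abelian varieties), `C` the Chow groups with rational
coefficients (in the form of their formal properties, `IsChowProj`) and `H` a Weil cohomology theory
(`IsWeilProj`). A Lefschetz class of `X` is a class `D ∈ CH^1(X)` for which `X` has a Chow-Kunneth
decomposition with motivic hard Lefschetz; for abelian varieties such classes exist (Kunnemann), and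
all polarizations are conjectured to be of this kind. For `D ∈ CH^1(X)` let Q1 for `(X, D)` be the
statement that `D^(d+1-2i) : CH^i(X)_hom → CH^(d+1-i)(X)_hom` is bijective for `2 i ≤ d + 1`,
`d = dim X`.

1. If `D`, `D'` are Lefschetz classes of `X`, `Y` and Q1 holds for `(X × Y, D × 1 + 1 × D')`, then
   Q1 holds for `(X, D)` and `(Y, D')`, external products of homologically trivial cycles on `X`
   and `Y` are zero in `CH(X × Y)`, and a correspondence of any degree from `X` to `Y` which acts as
   zero on `H^(2i-1)(X)` acts as zero on `CH^i(X)_hom`.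
2. If Q1 holds for `(X × X, D × 1 + 1 × D)`, then intersection products of homologically trivial
   cycles on `X` are zero, and so are compositions of homologically trivial self-correspondences.
3. If each variety in `𝒱` has a Lefschetz class, then Q1 for all varieties in `𝒱` and all their
   Lefschetz classes is equivalent to the existence of a Bloch-Beilinson filtration with `F^2 = 0` on
   the Chow groups of the varieties in `𝒱`, as expected over number fields; and to the statement that
   the action of correspondences on `CH^i_hom` factors through their action on `H^(2i-1)`.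

Proof. The operator `D × 1 + 1 × D'` is part of an `sl(2)`-triple of correspondences, whose weight
projectors are the products `π_i × ρ_j` of those of `X` and `Y`. By Q1 for the product the
homologically trivial cycles in `CH^m(X × Y)` lie in the part of `π_i × ρ_j`, `i + j = 2 m - 1`.
Applied to `x × 1` this gives `CH^a(X)_hom = π_(2a-1) CH^a(X)`, and then a product `x × y` of
homologically trivial cycles lies in the part `i + j = 2 a + 2 b - 2` too, so it is zero.
-/

open CategoryTheory AlgebraicGeometry

set_option autoImplicit false

universe u v w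

namespace Pool.Agent.Results.MP_e2c9e7_nt.TwoStepFiltration

open Pool.Agent.H914 Pool.Agent.W492.BB Pool.Agent.TH133 Pool.Agent.Y107 Pool.Agent.HS37.BL

/-- Hard Lefschetz for homologically trivial cycles on products and two-step Bloch-Beilinson
filtrations. -/
theorem result {k : Type u} [Field k] {𝒱 : VarClass k} (C : TheoryData.{u, v, 0} 𝒱 ℚ)
    [IsChowProj C] {K : Type w} [Field K] (H : WeilTheoryData.{u, v, w} C K) [IsWeilProj H] :
    (∀ (X Y : 𝒱.Obj) (D : C.A X) (D' : C.A Y), IsLefschetzClass H D → IsLefschetzClass H D' →
      HardLefschetzHom H (C.ext D 1 + C.ext 1 D') → HardLefschetzHom H D ∧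
        HardLefschetzHom H D' ∧ ExternalZero H X Y ∧ ActsByCohomology H X Y) ∧
    (∀ (X : 𝒱.Obj) (D : C.A X), IsLefschetzClass H D →
      HardLefschetzHom H (C.ext D 1 + C.ext 1 D) → ProductsZero H X ∧ CompositionsZero H X) ∧
    ((∀ X : 𝒱.Obj, ∃ D : C.A X, IsLefschetzClass H D) → List.TFAE
      [∀ (X : 𝒱.Obj) (D : C.A X), IsLefschetzClass H D → HardLefschetzHom H D,
       ∀ (X Y : 𝒱.Obj) (D : C.A X) (D' : C.A Y), IsLefschetzClass H D →
        IsLefschetzClass H D' → HardLefschetzHom H (C.ext D 1 + C.ext 1 D'),
       TwoStepBB H,
       ∀ X Y : 𝒱.Obj, ActsByCohomology H X Y]) := by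
  refine ⟨fun X Y D D' hD hD' h => pair_main hD hD' h, fun X D hD h =>
    ⟨productsZero_of_acts (pair_main hD hD h).2.2.2, square_main hD h⟩, fun hV => ?_⟩
  have hCK : ∀ X : 𝒱.Obj, ∃ π, IsCK H X π := by
    intro X
    obtain ⟨D, -, π, hπ, -⟩ := hV X
    exact ⟨π, hπ⟩
  tfae_have 1 → 2 := fun h X Y D D' hD hD' => h _ _ (isLefschetzClass_prod hD hD')
  tfae_have 2 → 4 := by
    intro h X Y
    obtain ⟨D, hD⟩ := hV X
    obtain ⟨D', hD'⟩ := hV Y
    exact (pair_main hD hD' (h X Y D D' hD hD')).2.2.2
  tfae_have 4 → 1 := fun h X D hD => hardLefschetz_of_acts (h X X) hD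
  tfae_have 4 → 3 := twoStep_of_acts
  tfae_have 3 → 4 := acts_of_twoStep hCK
  tfae_finish

end Pool.Agent.Results.MP_e2c9e7_nt.TwoStepFiltration
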